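import Pool.Agent.R531.Agp.Final

/-!
# Subset sum in free products is in ZPP

If `SSP(G)` and `SSP(H)` are in `P` then `SSP(G * H)` is in `ZPP = RP ∩ coRP`, provided that each
of the two groups either has its acyclic graph word problem in `P` or has a central quotient whose
balls of polynomial radius have exponentially many elements.
-/

namespace Pool.Agent.Results.MP_867493_lc.FreeProductsZPP

open Pool.Agent.NPC Pool.Agent.R531.Agp

/-- Let `G` be generated by `g 0, ..., g (n - 1)` and `H` by `h 0, ..., h (m - 1)`, with subset sum
problems in `P`.  Suppose that the acyclic graph word problem of `G` is in `P` or the balls of some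
polynomial radius `q s` in `G / Z(G)` have at least `2 ^ s` elements for all `s`, and the same for
`H`.  Then the subset sum problem of the free product `G * H` is in `ZPP`; if moreover it is
`NP`-hard then every language in `NP` is in `ZPP`. -/
theorem result : ∀ (G H : Type*) [Group G] [Group H] (n m : ℕ) (g : Fin n → G) (h : Fin m → H),
    Subgroup.closure (Set.range g) = ⊤ → Subgroup.closure (Set.range h) = ⊤ →
    InPP (SSP g) → InPP (SSP h) →
    (InPP (AGP g) ∨ BigBalls g) → (InPP (AGP h) ∨ BigBalls h) →
    InZPP (lang (SSP (Fin.append (fun i => (Monoid.Coprod.inl (g i) : Monoid.Coprod G H))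
      (fun j => Monoid.Coprod.inr (h j))))) ∧
    (NPHardP (SSP (Fin.append (fun i => (Monoid.Coprod.inl (g i) : Monoid.Coprod G H))
      (fun j => Monoid.Coprod.inr (h j)))) → ∀ L : Set (List Bool), InNP L → InZPP L) := by
  intro G H _ _ n m g h hg hh hSg hSh hg' hh'
  have h1 : LV (AGP g) := hg'.elim LV.of_inPP fun hB => lv_agp g hg hB hSg
  have h2 : LV (AGP h) := hh'.elim LV.of_inPP fun hB => lv_agp h hh hB hSh
  have h3 := lv_ssp g h h1 h2
  exact ⟨h3.zpp, h3.collapse⟩

end Pool.Agent.Results.MP_867493_lc.FreeProductsZPP
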